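import Mathlib

/-! LS17: the curve (`curve3`), from `D3` and `Ebound`. -/

set_option autoImplicit false
set_option linter.unusedVariables false

namespace Pool.Agent.N279.LS

/-- the statement of `D3` -/
def SD3 : Prop := ∀ {Y η s E : ℝ} (hY0 : 0 ≤ Y) (hY1 : Y ≤ 1) (hη0 : 0 ≤ η) (hη1 : η ≤ 1 / 3)
    (hs0 : 0 ≤ s) (hs1 : 2 * s + η ≤ 3957 / 5000)
    (hE : E ≤ 1 + s * Y + s * (s + η) / 2 * Y ^ 2 +
      (s * (s + η) * (s + 2 * η) / 6 + 3 / 200) * Y ^ 3),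
    (E + Y * (1 + Y / 2)) * ((1 / 2 + s) * (1 + 3 * (1 + Y / 2) ^ 2 * Y +
        222 / 125 * Y ^ 2 * (1 + Y / 2) ^ 4) +
      (1 + (1 - η) * Y) * (3 * (1 + Y / 2) ^ 2 + 3 * (1 + Y / 2) * Y +
        444 / 125 * Y * (1 + Y / 2) ^ 4 + 444 / 125 * Y ^ 2 * (1 + Y / 2) ^ 3) / 6) ≤
    (s * E / (1 - η * Y) + 1 + Y) * ((1 + (1 - η) * Y) * (1 + 3 * (1 + Y / 2) ^ 2 * Y +
        222 / 125 * Y ^ 2 * (1 + Y / 2) ^ 4))

/-- the statement of `Ebound` -/
def SEb : Prop := ∀ {Y η s : ℝ} (hY0 : 0 ≤ Y) (hY1 : Y ≤ 1) (hη0 : 0 < η) (hη1 : η ≤ 1 / 3)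
    (hs0 : 0 ≤ s) (hs1 : 2 * s + η ≤ 3957 / 5000),
    (1 - η * Y) ^ (-(s / η)) ≤ 1 + s * Y + s * (s + η) / 2 * Y ^ 2 +
      (s * (s + η) * (s + 2 * η) / 6 + 3 / 200) * Y ^ 3

theorem curve3_of (D3 : SD3) (Ebound : SEb) {Y η s : ℝ} (hY0 : 0 ≤ Y) (hY1 : Y ≤ 1) (hη0 : 0 < η)
    (hη1 : η ≤ 1 / 3) (hs0 : 0 ≤ s) (hs1 : 2 * s + η ≤ 3957 / 5000) :
    (1 + (1 - η) * Y) ^ ((1 / 2 + s) / (1 - η)) *
      (1 + 3 * (1 + Y / 2) ^ 2 * Y + 222 / 125 * Y ^ 2 * (1 + Y / 2) ^ 4) ^ ((1:ℝ) / 6) ≤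
    (1 - η * Y) ^ (-(s / η)) + Y * (1 + Y / 2) := by
  have h1η : 0 < 1 - η := by linarith
  have hB : ∀ y ∈ Set.Icc (0:ℝ) 1, 0 < 1 - η * y := by
    intro y hy
    nlinarith [hy.1, hy.2]
  have hE0 : ∀ y ∈ Set.Icc (0:ℝ) 1, 0 < (1 - η * y) ^ (-(s / η)) := fun y hy =>
    Real.rpow_pos_of_pos (hB y hy) _
  have hP : ∀ y ∈ Set.Icc (0:ℝ) 1, 0 < (1 - η * y) ^ (-(s / η)) + y * (1 + y / 2) := by
    intro y hy
    have := hE0 y hy
    have h2 : 0 ≤ y * (1 + y / 2) := mul_nonneg hy.1 (by linarith [hy.1])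
    linarith
  have hL : ∀ y ∈ Set.Icc (0:ℝ) 1, 0 < 1 + (1 - η) * y := by
    intro y hy
    have : 0 ≤ (1 - η) * y := mul_nonneg h1η.le hy.1
    linarith
  have hN : ∀ y ∈ Set.Icc (0:ℝ) 1,
      0 < 1 + 3 * (1 + y / 2) ^ 2 * y + 222 / 125 * y ^ 2 * (1 + y / 2) ^ 4 := by
    intro y hy
    have h2 : 0 ≤ 3 * (1 + y / 2) ^ 2 * y := mul_nonneg (by positivity) hy.1
    have h3 : 0 ≤ 222 / 125 * y ^ 2 * (1 + y / 2) ^ 4 := by positivity
    linarith
  -- the derivative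
  have hder : ∀ y ∈ Set.Icc (0:ℝ) 1, HasDerivAt (fun y : ℝ =>
      Real.log ((1 - η * y) ^ (-(s / η)) + y * (1 + y / 2)) -
        (1 / 2 + s) / (1 - η) * Real.log (1 + (1 - η) * y) -
        1 / 6 * Real.log (1 + 3 * (1 + y / 2) ^ 2 * y + 222 / 125 * y ^ 2 * (1 + y / 2) ^ 4))
      ((s * (1 - η * y) ^ (-(s / η)) / (1 - η * y) + 1 + y) /
          ((1 - η * y) ^ (-(s / η)) + y * (1 + y / 2)) -
        (1 / 2 + s) / (1 - η) * ((1 - η) / (1 + (1 - η) * y)) -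
        1 / 6 * ((3 * (1 + y / 2) ^ 2 + 3 * (1 + y / 2) * y +
        444 / 125 * y * (1 + y / 2) ^ 4 + 444 / 125 * y ^ 2 * (1 + y / 2) ^ 3) /
          (1 + 3 * (1 + y / 2) ^ 2 * y + 222 / 125 * y ^ 2 * (1 + y / 2) ^ 4))) y := by
    intro y hy
    have hb : HasDerivAt (fun y : ℝ => 1 - η * y) (-η) y := by
      have := ((hasDerivAt_id y).const_mul η).const_sub 1
      simpa using this
    have hE : HasDerivAt (fun y : ℝ => (1 - η * y) ^ (-(s / η)))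
        (s * (1 - η * y) ^ (-(s / η)) / (1 - η * y)) y := by
      have h2 := hb.rpow_const (p := -(s / η)) (Or.inl (hB y hy).ne')
      refine h2.congr_deriv ?_
      rw [Real.rpow_sub_one (hB y hy).ne']
      have : -η * -(s / η) = s := by field_simp
      rw [this]
      ring
    have h12 : HasDerivAt (fun y : ℝ => 1 + y / 2) (1 / 2) y := by
      have := ((hasDerivAt_id y).div_const 2).const_add 1
      simpa using this
    have hPd : HasDerivAt (fun y : ℝ => (1 - η * y) ^ (-(s / η)) + y * (1 + y / 2))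
        (s * (1 - η * y) ^ (-(s / η)) / (1 - η * y) + 1 + y) y := by
      have h2 := hE.add ((hasDerivAt_id y).mul h12)
      refine h2.congr_deriv ?_
      simp only [id]
      ring
    have hLd : HasDerivAt (fun y : ℝ => 1 + (1 - η) * y) (1 - η) y := by
      have := ((hasDerivAt_id y).const_mul (1 - η)).const_add 1
      simpa using this
    have hNd : HasDerivAt (fun y : ℝ =>
        1 + 3 * (1 + y / 2) ^ 2 * y + 222 / 125 * y ^ 2 * (1 + y / 2) ^ 4)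
        (3 * (1 + y / 2) ^ 2 + 3 * (1 + y / 2) * y +
        444 / 125 * y * (1 + y / 2) ^ 4 + 444 / 125 * y ^ 2 * (1 + y / 2) ^ 3) y := by
      have h2 := ((((h12.pow 2).const_mul 3).mul (hasDerivAt_id y)).const_add 1).add
        ((((hasDerivAt_id y).pow 2).const_mul (222 / 125)).mul (h12.pow 4))
      refine h2.congr_deriv ?_
      simp only [id, Pi.pow_apply]
      norm_num
      ring
    exact ((hPd.log (hP y hy).ne').sub ((hLd.log (hL y hy).ne').const_mul _)).sub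
      ((hNd.log (hN y hy).ne').const_mul _)
  have hnn : ∀ y ∈ Set.Icc (0:ℝ) 1, 0 ≤ (s * (1 - η * y) ^ (-(s / η)) / (1 - η * y) + 1 + y) /
          ((1 - η * y) ^ (-(s / η)) + y * (1 + y / 2)) -
        (1 / 2 + s) / (1 - η) * ((1 - η) / (1 + (1 - η) * y)) -
        1 / 6 * ((3 * (1 + y / 2) ^ 2 + 3 * (1 + y / 2) * y +
        444 / 125 * y * (1 + y / 2) ^ 4 + 444 / 125 * y ^ 2 * (1 + y / 2) ^ 3) /
          (1 + 3 * (1 + y / 2) ^ 2 * y + 222 / 125 * y ^ 2 * (1 + y / 2) ^ 4)) := by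
    intro y hy
    have h1 := D3 hy.1 hy.2 hη0.le hη1 hs0 hs1 (Ebound hy.1 hy.2 hη0 hη1 hs0 hs1)
    have p1 := hP y hy
    have p2 := hL y hy
    have p3 := hN y hy
    generalize (1 - η * y) ^ (-(s / η)) = E at *
    generalize s * E / (1 - η * y) + 1 + y = A at *
    generalize E + y * (1 + y / 2) = P at *
    generalize 1 + (1 - η) * y = L at *
    generalize 1 + 3 * (1 + y / 2) ^ 2 * y + 222 / 125 * y ^ 2 * (1 + y / 2) ^ 4 = N at *
    generalize 3 * (1 + y / 2) ^ 2 + 3 * (1 + y / 2) * y +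
        444 / 125 * y * (1 + y / 2) ^ 4 + 444 / 125 * y ^ 2 * (1 + y / 2) ^ 3 = N' at *
    have h2 : (1 / 2 + s) / (1 - η) * ((1 - η) / L) = (1 / 2 + s) / L := by
      field_simp
    rw [h2]
    have h3 : A / P - (1 / 2 + s) / L - 1 / 6 * (N' / N) =
        (A * (L * N) - P * ((1 / 2 + s) * N + L * N' / 6)) / (P * (L * N)) := by
      field_simp
      ring
    rw [h3]
    exact div_nonneg (by linarith) (by positivity)
  have hmono : MonotoneOn (fun y : ℝ =>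
      Real.log ((1 - η * y) ^ (-(s / η)) + y * (1 + y / 2)) -
        (1 / 2 + s) / (1 - η) * Real.log (1 + (1 - η) * y) -
        1 / 6 * Real.log (1 + 3 * (1 + y / 2) ^ 2 * y + 222 / 125 * y ^ 2 * (1 + y / 2) ^ 4))
      (Set.Icc 0 1) := by
    apply monotoneOn_of_deriv_nonneg (convex_Icc 0 1)
    · exact fun y hy => (hder y hy).continuousAt.continuousWithinAt
    · intro y hy
      exact (hder y (interior_subset hy)).differentiableAt.differentiableWithinAt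
    · intro y hy
      rw [(hder y (interior_subset hy)).deriv]
      exact hnn y (interior_subset hy)
  have hfin := hmono (Set.left_mem_Icc.2 zero_le_one) ⟨hY0, hY1⟩ hY0
  simp only [mul_zero, sub_zero, Real.one_rpow, zero_mul, add_zero, Real.log_one] at hfin
  have hz : (222 / 125 : ℝ) * 0 ^ 2 * (1 + 0 / 2) ^ 4 = 0 := by norm_num
  rw [hz] at hfin
  simp only [add_zero, Real.log_one, mul_zero] at hfin
  have hY : Y ∈ Set.Icc (0:ℝ) 1 := ⟨hY0, hY1⟩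
  rw [← Real.log_le_log_iff (mul_pos (Real.rpow_pos_of_pos (hL Y hY) _)
      (Real.rpow_pos_of_pos (hN Y hY) _)) (hP Y hY),
    Real.log_mul (Real.rpow_pos_of_pos (hL Y hY) _).ne' (Real.rpow_pos_of_pos (hN Y hY) _).ne',
    Real.log_rpow (hL Y hY), Real.log_rpow (hN Y hY)]
  linarith

end Pool.Agent.N279.LS
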