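import Pool.Agent.N332.SK.Defs5

/-! KT10: the curve for `k = 5` (`curve5`), from `D5` and `Ebound5`. -/

set_option autoImplicit false
set_option linter.unusedVariables false

namespace Pool.Agent.N279.LS

open Pool.Agent.N332.SK

theorem curve_gen {η s y0 q : ℝ} {N N' : ℝ → ℝ} (hη0 : 0 < η) (hη1 : η < 1) (hy1 : y0 ≤ 1)
    (hs0 : 0 ≤ s) (hq : 0 < q) (hN : ∀ y ∈ Set.Icc (0:ℝ) y0, 0 < N y) (hN0 : N 0 = 1)
    (hNd : ∀ y ∈ Set.Icc (0:ℝ) y0, HasDerivAt N (N' y) y)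
    (hD : ∀ y ∈ Set.Icc (0:ℝ) y0,
      ((1 - η * y) ^ (-(s / η)) + y * (1 + y / 2)) *
        ((1 / 2 + s) * N y + (1 + (1 - η) * y) * N' y / q) ≤
      (s * (1 - η * y) ^ (-(s / η)) / (1 - η * y) + 1 + y) * ((1 + (1 - η) * y) * N y))
    {Y : ℝ} (hY : Y ∈ Set.Icc (0:ℝ) y0) :
    (1 + (1 - η) * Y) ^ ((1 / 2 + s) / (1 - η)) * N Y ^ (1 / q) ≤
    (1 - η * Y) ^ (-(s / η)) + Y * (1 + Y / 2) := by
  have h1η : 0 < 1 - η := by linarith
  have hy0 : 0 ≤ y0 := le_trans hY.1 hY.2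
  have hB : ∀ y ∈ Set.Icc (0:ℝ) y0, 0 < 1 - η * y := by
    intro y hy
    have h1 : y ≤ 1 := le_trans hy.2 hy1
    nlinarith [hy.1]
  have hE0 : ∀ y ∈ Set.Icc (0:ℝ) y0, 0 < (1 - η * y) ^ (-(s / η)) := fun y hy =>
    Real.rpow_pos_of_pos (hB y hy) _
  have hP : ∀ y ∈ Set.Icc (0:ℝ) y0, 0 < (1 - η * y) ^ (-(s / η)) + y * (1 + y / 2) := by
    intro y hy
    have := hE0 y hy
    have h2 : 0 ≤ y * (1 + y / 2) := mul_nonneg hy.1 (by linarith [hy.1])
    linarith
  have hL : ∀ y ∈ Set.Icc (0:ℝ) y0, 0 < 1 + (1 - η) * y := by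
    intro y hy
    have : 0 ≤ (1 - η) * y := mul_nonneg h1η.le hy.1
    linarith
  -- the derivative
  have hder : ∀ y ∈ Set.Icc (0:ℝ) y0, HasDerivAt (fun y : ℝ =>
      Real.log ((1 - η * y) ^ (-(s / η)) + y * (1 + y / 2)) -
        (1 / 2 + s) / (1 - η) * Real.log (1 + (1 - η) * y) - 1 / q * Real.log (N y))
      ((s * (1 - η * y) ^ (-(s / η)) / (1 - η * y) + 1 + y) /
          ((1 - η * y) ^ (-(s / η)) + y * (1 + y / 2)) -
        (1 / 2 + s) / (1 - η) * ((1 - η) / (1 + (1 - η) * y)) -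
        1 / q * (N' y / N y)) y := by
    intro y hy
    have hb : HasDerivAt (fun y : ℝ => 1 - η * y) (-η) y := by
      have := ((hasDerivAt_id y).const_mul η).const_sub 1
      simpa using this
    have hE : HasDerivAt (fun y : ℝ => (1 - η * y) ^ (-(s / η)))
        (s * (1 - η * y) ^ (-(s / η)) / (1 - η * y)) y := by
      have h2 := hb.rpow_const (p := -(s / η)) (Or.inl (hB y hy).ne')
      refine h2.congr_deriv ?_
      rw [Real.rpow_sub_one (hB y hy).ne']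
      have : -η * -(s / η) = s := by field_simp
      rw [this]
      ring
    have h12 : HasDerivAt (fun y : ℝ => 1 + y / 2) (1 / 2) y := by
      have := ((hasDerivAt_id y).div_const 2).const_add 1
      simpa using this
    have hPd : HasDerivAt (fun y : ℝ => (1 - η * y) ^ (-(s / η)) + y * (1 + y / 2))
        (s * (1 - η * y) ^ (-(s / η)) / (1 - η * y) + 1 + y) y := by
      have h2 := hE.add ((hasDerivAt_id y).mul h12)
      refine h2.congr_deriv ?_
      simp only [id]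
      ring
    have hLd : HasDerivAt (fun y : ℝ => 1 + (1 - η) * y) (1 - η) y := by
      have := ((hasDerivAt_id y).const_mul (1 - η)).const_add 1
      simpa using this
    exact ((hPd.log (hP y hy).ne').sub ((hLd.log (hL y hy).ne').const_mul _)).sub
      (((hNd y hy).log (hN y hy).ne').const_mul _)
  have hnn : ∀ y ∈ Set.Icc (0:ℝ) y0, 0 ≤ (s * (1 - η * y) ^ (-(s / η)) / (1 - η * y) + 1 + y) /
          ((1 - η * y) ^ (-(s / η)) + y * (1 + y / 2)) -
        (1 / 2 + s) / (1 - η) * ((1 - η) / (1 + (1 - η) * y)) -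
        1 / q * (N' y / N y) := by
    intro y hy
    have h1 := hD y hy
    have p1 := hP y hy
    have p2 := hL y hy
    have p3 := hN y hy
    generalize (1 - η * y) ^ (-(s / η)) = E at *
    generalize s * E / (1 - η * y) + 1 + y = A at *
    generalize E + y * (1 + y / 2) = P at *
    generalize 1 + (1 - η) * y = L at *
    generalize N y = n at *
    generalize N' y = n' at *
    have h2 : (1 / 2 + s) / (1 - η) * ((1 - η) / L) = (1 / 2 + s) / L := by
      field_simp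
    rw [h2]
    have h3 : A / P - (1 / 2 + s) / L - 1 / q * (n' / n) =
        (A * (L * n) - P * ((1 / 2 + s) * n + L * n' / q)) / (P * (L * n)) := by
      field_simp
      ring
    rw [h3]
    exact div_nonneg (by linarith) (by positivity)
  have hmono : MonotoneOn (fun y : ℝ =>
      Real.log ((1 - η * y) ^ (-(s / η)) + y * (1 + y / 2)) -
        (1 / 2 + s) / (1 - η) * Real.log (1 + (1 - η) * y) - 1 / q * Real.log (N y))
      (Set.Icc 0 y0) := by
    apply monotoneOn_of_deriv_nonneg (convex_Icc 0 y0)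
    · exact fun y hy => (hder y hy).continuousAt.continuousWithinAt
    · intro y hy
      exact (hder y (interior_subset hy)).differentiableAt.differentiableWithinAt
    · intro y hy
      rw [(hder y (interior_subset hy)).deriv]
      exact hnn y (interior_subset hy)
  have hfin := hmono (Set.left_mem_Icc.2 hy0) hY hY.1
  simp only [mul_zero, sub_zero, Real.one_rpow, zero_mul, add_zero, Real.log_one, hN0] at hfin
  rw [← Real.log_le_log_iff (mul_pos (Real.rpow_pos_of_pos (hL Y hY) _)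
      (Real.rpow_pos_of_pos (hN Y hY) _)) (hP Y hY),
    Real.log_mul (Real.rpow_pos_of_pos (hL Y hY) _).ne' (Real.rpow_pos_of_pos (hN Y hY) _).ne',
    Real.log_rpow (hL Y hY), Real.log_rpow (hN Y hY)]
  linarith

/-- the statement of `D5` -/
def SD5 : Prop := ∀ {Y η s E : ℝ} (hY0 : 0 ≤ Y) (hY1 : Y ≤ 3 / 10) (hη0 : 0 ≤ η) (hη1 : η ≤ 1 / 5)
    (hs0 : 0 ≤ s) (hs1 : 2 * s + η ≤ 111 / 125)
    (hE : E ≤ 1 + s * Y + s * (s + η) / 2 * Y ^ 2 +
      (s * (s + η) * (s + 2 * η) / 6 + 3 / 1000) * Y ^ 3),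
    (E + Y * (1 + Y / 2)) * ((1 / 2 + s) * N5 Y + (1 + (1 - η) * Y) * N5' Y / 10) ≤
    (s * E / (1 - η * Y) + 1 + Y) * ((1 + (1 - η) * Y) * N5 Y)

/-- the statement of `Ebound5` -/
def SEb5 : Prop := ∀ {Y η s : ℝ} (hY0 : 0 ≤ Y) (hY1 : Y ≤ 3 / 10) (hη0 : 0 < η) (hη1 : η ≤ 1 / 5)
    (hs0 : 0 ≤ s) (hs1 : 2 * s + η ≤ 111 / 125),
    (1 - η * Y) ^ (-(s / η)) ≤ 1 + s * Y + s * (s + η) / 2 * Y ^ 2 +
      (s * (s + η) * (s + 2 * η) / 6 + 3 / 1000) * Y ^ 3

theorem hasDerivAt_N5 (y : ℝ) : HasDerivAt N5 (N5' y) y := by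
  have h12 : HasDerivAt (fun y : ℝ => 1 + y / 2) (1 / 2) y := by
    have := ((hasDerivAt_id y).div_const 2).const_add 1
    simpa using this
  have hid := hasDerivAt_id y
  have h2 := (((((h12.pow 2).const_mul 5).mul hid).const_add 1).add
    (((hid.pow 2).const_mul (1511 / 200)).mul (h12.pow 4))).add
    (((hid.pow 3).const_mul (1657 / 500)).mul (h12.pow 6))
  refine h2.congr_deriv ?_
  unfold N5'
  simp only [id, Pi.pow_apply]
  norm_num
  ring

theorem curve5_of (D5 : SD5) (Ebound5 : SEb5) {Y η s : ℝ} (hY0 : 0 ≤ Y) (hY1 : Y ≤ 3 / 10)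
    (hη0 : 0 < η) (hη1 : η ≤ 1 / 5) (hs0 : 0 ≤ s) (hs1 : 2 * s + η ≤ 111 / 125) :
    (1 + (1 - η) * Y) ^ ((1 / 2 + s) / (1 - η)) * N5 Y ^ ((1:ℝ) / 10) ≤
    (1 - η * Y) ^ (-(s / η)) + Y * (1 + Y / 2) := by
  refine curve_gen (y0 := 3 / 10) (N' := N5') hη0 (by linarith) (by norm_num) hs0
    (by norm_num) ?_ ?_ (fun y _ => hasDerivAt_N5 y) ?_ ⟨hY0, hY1⟩
  · intro y hy
    unfold N5
    have h0 := hy.1
    positivity
  · unfold N5
    norm_num
  · intro y hy
    exact D5 hy.1 hy.2 hη0.le hη1 hs0 hs1 (Ebound5 hy.1 hy.2 hη0 hη1 hs0 hs1)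

end Pool.Agent.N279.LS
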